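import Pool.Agent.Helper90.QF.St

/-!
# Project QF (MP_04a253_al): module DEG (polynomials of degree at most two)
-/

set_option autoImplicit false

noncomputable section

namespace Pool.Agent.Helper38.QF

open Pool.Agent.Helper90.QF MvPolynomial

variable {n : ℕ}

/-- representable, without symmetry -/
def Rp (p : MvPolynomial (Fin n) ℂ) : Prop := ∃ (a : ℂ) (b : Fin n → ℂ) (A : Fin n → Fin n → ℂ),
  p = qf a b A

theorem rp_add {p q : MvPolynomial (Fin n) ℂ} (hp : Rp p) (hq : Rp q) : Rp (p + q) := by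
  obtain ⟨a, b, A, rfl⟩ := hp
  obtain ⟨a', b', A', rfl⟩ := hq
  refine ⟨a + a', b + b', A + A', ?_⟩
  unfold qf
  simp only [Pi.add_apply, C_add, add_mul, Finset.sum_add_distrib]
  ring

theorem rp_zero : Rp (0 : MvPolynomial (Fin n) ℂ) := ⟨0, 0, 0, by simp [qf]⟩

theorem rp_C (c : ℂ) : Rp (C c : MvPolynomial (Fin n) ℂ) := ⟨c, 0, 0, by simp [qf]⟩

theorem rp_X (c : ℂ) (i : Fin n) : Rp (C c * X i : MvPolynomial (Fin n) ℂ) := by
  refine ⟨0, fun k => if k = i then c else 0, 0, ?_⟩
  unfold qf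
  simp only [apply_ite C, C_0, Pi.zero_apply, zero_mul, ite_mul, Finset.sum_const_zero, add_zero,
    zero_add, Finset.sum_ite_eq', Finset.mem_univ, if_true]

theorem rp_XX (c : ℂ) (i j : Fin n) : Rp (C c * (X i * X j) : MvPolynomial (Fin n) ℂ) := by
  refine ⟨0, 0, fun k l => if k = i then (if l = j then c else 0) else 0, ?_⟩
  unfold qf
  have h : ∀ k : Fin n, ∑ l : Fin n, (C (if k = i then (if l = j then c else 0) else 0) *
      (X k * X l) : MvPolynomial (Fin n) ℂ) = if k = i then C c * (X k * X j) else 0 := by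
    intro k
    by_cases hk : k = i
    · simp only [hk, if_true, apply_ite C, C_0, ite_mul, zero_mul, Finset.sum_ite_eq',
        Finset.mem_univ]
    · simp [hk]
  simp only [h, Pi.zero_apply, C_0, zero_mul, Finset.sum_const_zero, add_zero, zero_add,
    Finset.sum_ite_eq', Finset.mem_univ, if_true]

theorem split (v : Fin n →₀ ℕ) : v = 0 ∨ ∃ (i : Fin n) (w : Fin n →₀ ℕ),
    v = Finsupp.single i 1 + w ∧ (v.sum fun _ e => e) = 1 + w.sum fun _ e => e := by
  by_cases h : v = 0
  · exact Or.inl h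
  · right
    obtain ⟨i, hi⟩ := Finsupp.ne_iff.1 h
    have hi' : 1 ≤ v i := Nat.one_le_iff_ne_zero.2 (by simpa using hi)
    have hle : Finsupp.single i 1 ≤ v := Finsupp.single_le_iff.2 hi'
    have hv : v = Finsupp.single i 1 + (v - Finsupp.single i 1) := (add_tsub_cancel_of_le hle).symm
    refine ⟨i, v - Finsupp.single i 1, hv, ?_⟩
    conv_lhs => rw [hv]
    rw [Finsupp.sum_add_index' (fun _ => rfl) (fun _ _ _ => rfl)]
    simp

theorem rp_monomial (v : Fin n →₀ ℕ) (c : ℂ) (h : (v.sum fun _ e => e) ≤ 2) :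
    Rp (monomial v c) := by
  rcases split v with h0 | ⟨i, w, hw, hs⟩
  · subst h0
    exact rp_C c
  · rcases split w with h1 | ⟨j, u, hu, hs2⟩
    · have : monomial v c = (C c * X i : MvPolynomial (Fin n) ℂ) := by
        rw [hw, h1, add_zero, X, C_mul_monomial, mul_one]
      rw [this]
      exact rp_X c i
    · rcases split u with h3 | ⟨k, t, ht, hs3⟩
      · have : monomial v c = (C c * (X i * X j) : MvPolynomial (Fin n) ℂ) := by
          rw [hw, hu, h3, add_zero, X, X, monomial_mul, C_mul_monomial, mul_one, mul_one]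
        rw [this]
        exact rp_XX c i j
      · omega

theorem rp_of_deg (g : MvPolynomial (Fin n) ℂ) (hg : g.totalDegree ≤ 2) : Rp g := by
  rw [g.as_sum]
  refine Finset.sum_induction _ Rp (fun _ _ => rp_add) rp_zero fun v hv => ?_
  exact rp_monomial v _ ((le_totalDegree hv).trans hg)

theorem qf_symm (a : ℂ) (b : Fin n → ℂ) (A : Fin n → Fin n → ℂ) :
    qf a b A = qf a b (fun i j => (A i j + A j i) / 2) := by
  unfold qf
  congr 1
  have h1 : ∑ i, ∑ j, (C ((A i j + A j i) / 2) * (X i * X j) : MvPolynomial (Fin n) ℂ) =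
      ∑ i, ∑ j, C (A i j / 2) * (X i * X j) + ∑ i, ∑ j, C (A j i / 2) * (X i * X j) := by
    rw [← Finset.sum_add_distrib]
    refine Finset.sum_congr rfl fun i _ => ?_
    rw [← Finset.sum_add_distrib]
    refine Finset.sum_congr rfl fun j _ => ?_
    rw [add_div, C_add, add_mul]
  have h2 : ∑ i, ∑ j, (C (A j i / 2) * (X i * X j) : MvPolynomial (Fin n) ℂ) =
      ∑ i, ∑ j, C (A i j / 2) * (X i * X j) := by
    rw [Finset.sum_comm]
    refine Finset.sum_congr rfl fun i _ => Finset.sum_congr rfl fun j _ => ?_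
    rw [mul_comm (X j) (X i)]
  rw [h1, h2, ← Finset.sum_add_distrib]
  refine Finset.sum_congr rfl fun i _ => ?_
  rw [← Finset.sum_add_distrib]
  refine Finset.sum_congr rfl fun j _ => ?_
  rw [← add_mul, ← C_add, add_halves]

theorem pd_qf (a : ℂ) (b : Fin n → ℂ) (A : Fin n → Fin n → ℂ) (hA : ∀ i j, A i j = A j i)
    (i : Fin n) : pderiv i (qf a b A) = C (b i) + C 2 * ∑ j, C (A i j) * X j := by
  unfold qf
  have h1 : ∀ k l : Fin n, pderiv i (C (A k l) * (X k * X l) : MvPolynomial (Fin n) ℂ) =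
      (if k = i then C (A k l) * X l else 0) + (if l = i then C (A k l) * X k else 0) := by
    intro k l
    rw [pderiv_C_mul, pderiv_mul, pderiv_X, pderiv_X]
    by_cases hk : k = i <;> by_cases hl : l = i <;> simp [Pi.single_apply, hk, hl]
    ring
  have h2 : ∀ k : Fin n, pderiv i (C (b k) * X k : MvPolynomial (Fin n) ℂ) =
      (if k = i then C (b k) else 0) := by
    intro k
    rw [pderiv_C_mul, pderiv_X]
    by_cases hk : k = i <;> simp [Pi.single_apply, hk]
  simp only [map_add, pderiv_C, map_sum, h1, h2, Finset.sum_add_distrib, zero_add,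
    Finset.sum_ite_eq', Finset.mem_univ, if_true]
  have h3 : ∑ k : Fin n, ∑ l : Fin n, (if k = i then C (A k l) * X l else 0 :
      MvPolynomial (Fin n) ℂ) = ∑ j, C (A i j) * X j := by
    rw [Finset.sum_comm]
    refine Finset.sum_congr rfl fun j _ => ?_
    simp only [Finset.sum_ite_eq', Finset.mem_univ, if_true]
  rw [h3]
  have h4 : ∑ k : Fin n, (C (A k i) * X k : MvPolynomial (Fin n) ℂ) = ∑ j, C (A i j) * X j :=
    Finset.sum_congr rfl fun j _ => by rw [hA j i]
  rw [h4]
  have h5 : (C 2 : MvPolynomial (Fin n) ℂ) = 2 := map_ofNat C 2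
  rw [h5]
  ring

/-- module DEG -/
theorem hDEG : StDEG := by
  constructor
  · intro n g hg
    obtain ⟨a, b, A, h⟩ := rp_of_deg g hg
    exact ⟨a, b, fun i j => (A i j + A j i) / 2, fun i j => by ring, h.trans (qf_symm a b A)⟩
  · intro n a b A hA
    refine ⟨pd_qf a b A hA, ?_⟩
    have h5 : (C 2 : MvPolynomial (Fin n) ℂ) = 2 := map_ofNat C 2
    have h1 : ∀ i : Fin n, (C (b i) * X i + X i * pderiv i (qf a b A) : MvPolynomial (Fin n) ℂ) =
        2 * (C (b i) * X i) + 2 * ∑ j, C (A i j) * (X i * X j) := by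
      intro i
      rw [pd_qf a b A hA, h5]
      have : ∑ j, (C (A i j) * (X i * X j) : MvPolynomial (Fin n) ℂ) =
          X i * ∑ j, C (A i j) * X j := by
        rw [Finset.mul_sum]
        exact Finset.sum_congr rfl fun j _ => by ring
      rw [this]
      ring
    rw [Finset.sum_congr rfl fun i _ => h1 i, Finset.sum_add_distrib, ← Finset.mul_sum,
      ← Finset.mul_sum, h5]
    unfold qf
    ring

end Pool.Agent.Helper38.QF
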